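import Mathlib

/-! Graphs with equal decks of small induced subgraphs, one Hamiltonian and one not:
definitions and the construction. -/

namespace Pool.Agent.Q296.HD

open Equiv

/-- the number of Hamilton cycles, as connected 2-regular spanning subgraphs -/
noncomputable def hamCount {V : Type*} (G : SimpleGraph V) : ℕ :=
  {H : SimpleGraph V | H ≤ G ∧ H.Connected ∧ ∀ v, (H.neighborSet v).ncard = 2}.ncard

/-- the number of `t`-element vertex sets inducing a graph isomorphic to `F` -/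
noncomputable def indCount {V : Type*} (G : SimpleGraph V) {t : ℕ} (F : SimpleGraph (Fin t)) : ℕ :=
  {S : Finset V | S.card = t ∧ Nonempty (G.induce (S : Set V) ≃g F)}.ncard

/-- the even permutations -/
abbrev Gd (m : ℕ) := {g : Perm (Fin (m + 1)) // Perm.sign g = 1}

/-- the vertices -/
inductive Vx (m d : ℕ)
  | row (i : Fin (m + 1)) (p : Fin (d + 1))
  | l (i : Fin (m + 1))
  | r (i : Fin (m + 1))
  | P | Q | O
  | w (g : Gd m) (k : Fin (m + 1)) (j c : Fin 3)
  deriving DecidableEq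

/-- the part of the vertices which does not depend on `d` -/
abbrev Core (m : ℕ) := (Fin (m + 1) ⊕ Fin (m + 1)) ⊕ (Fin 3 ⊕ (Gd m × Fin (m + 1) × Fin 3 × Fin 3))

def vxEquiv (m d : ℕ) : Vx m d ≃ (Fin (m + 1) × Fin (d + 1)) ⊕ Core m where
  toFun
    | .row i p => Sum.inl (i, p)
    | .l i => Sum.inr (Sum.inl (Sum.inl i))
    | .r i => Sum.inr (Sum.inl (Sum.inr i))
    | .P => Sum.inr (Sum.inr (Sum.inl 0))
    | .Q => Sum.inr (Sum.inr (Sum.inl 1))
    | .O => Sum.inr (Sum.inr (Sum.inl 2))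
    | .w g k j c => Sum.inr (Sum.inr (Sum.inr (g, k, j, c)))
  invFun
    | Sum.inl (i, p) => .row i p
    | Sum.inr (Sum.inl (Sum.inl i)) => .l i
    | Sum.inr (Sum.inl (Sum.inr i)) => .r i
    | Sum.inr (Sum.inr (Sum.inl 0)) => .P
    | Sum.inr (Sum.inr (Sum.inl 1)) => .Q
    | Sum.inr (Sum.inr (Sum.inl 2)) => .O
    | Sum.inr (Sum.inr (Sum.inr (g, k, j, c))) => .w g k j c
  left_inv := by
    intro v
    cases v <;> rfl
  right_inv := by
    intro v
    rcases v with ⟨i, p⟩ | ((i | i) | (x | ⟨g, k, j, c⟩))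
    · rfl
    · rfl
    · rfl
    · fin_cases x <;> rfl
    · rfl

noncomputable instance (m d : ℕ) : Fintype (Vx m d) := Fintype.ofEquiv _ (vxEquiv m d).symm

lemma card_vx (m d : ℕ) :
    Fintype.card (Vx m d) = (m + 1) * (d + 1) + Fintype.card (Core m) := by
  rw [Fintype.card_congr (vxEquiv m d), Fintype.card_sum, Fintype.card_prod]
  simp

/-- edges inside a 3-rung ladder with subdivided rungs, in one direction -/
def inner (j c j' c' : Fin 3) : Prop :=
  (j = j' ∧ (c : ℕ) + 1 = c') ∨ (c = c' ∧ c ≠ 1 ∧ (j : ℕ) + 1 = j')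

instance (j c j' c' : Fin 3) : Decidable (inner j c j' c') := by
  unfold inner; infer_instance

/-- the edges, each in one direction -/
def E {m d : ℕ} (σ : Perm (Fin (m + 1))) : Vx m d → Vx m d → Prop
  | .row i p, .row j q => i = j ∧ (p : ℕ) + 1 = q
  | .row i p, .l j => i = j ∧ p = 0 ∧ i ≠ 0
  | .row i p, .P => i = 0 ∧ p = 0
  | .row i p, .r j => p = Fin.last d ∧ j = σ i
  | .Q, .O => True
  | .O, .l i => i = 0
  | .l i, .w _ k j c => k = i ∧ j = 0 ∧ c = 2
  | .r i, .w g k j c => g.1 k = i ∧ j = 2 ∧ c = 0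
  | .P, .w _ k j c => k = 0 ∧ j = 0 ∧ c = 0
  | .Q, .w _ k j c => k = Fin.last m ∧ j = 2 ∧ c = 2
  | .w g k j c, .w g' k' j' c' => (g = g' ∧ k = k' ∧ inner j c j' c') ∨
      ((j = 2 ∧ c = 2 ∧ j' = 0 ∧ c' = 0) ∧
        ((g = g' ∧ (k : ℕ) + 1 = k') ∨ (k = Fin.last m ∧ k' = 0)))
  | _, _ => False

lemma E_irrefl {m d : ℕ} (σ : Perm (Fin (m + 1))) (v : Vx m d) : ¬ E σ v v := by
  cases v with
  | row i p => simp [E]
  | l i => simp [E]
  | r i => simp [E]
  | P => simp [E]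
  | Q => simp [E]
  | O => simp [E]
  | w g k j c =>
    rintro (⟨-, -, h⟩ | ⟨⟨h1, h2, h3, h4⟩, -⟩)
    · rcases h with ⟨-, h⟩ | ⟨-, -, h⟩ <;> omega
    · rw [h1] at h3
      exact absurd h3 (by decide)

/-- the graph `G_σ` -/
def Gr (m d : ℕ) (σ : Perm (Fin (m + 1))) : SimpleGraph (Vx m d) where
  Adj u v := E σ u v ∨ E σ v u
  symm := ⟨fun _ _ h => h.symm⟩
  loopless := ⟨fun v h => by
    rcases h with h | h <;> exact E_irrefl σ v h⟩

end Pool.Agent.Q296.HD
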