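import Pool.Agent.Q296.HD.Basic

/-! Equality of decks of small induced subgraphs, by a tail swapping involution. -/

namespace Pool.Agent.Q296.HD

open Equiv

/-- exchange the tails of the rows `i`, `j` beyond column `p` -/
def Phi (m d : ℕ) (p : Fin (d + 1)) (i j : Fin (m + 1)) : Perm (Vx m d) where
  toFun
    | .row k q => if p < q then .row (swap i j k) q else .row k q
    | v => v
  invFun
    | .row k q => if p < q then .row (swap i j k) q else .row k q
    | v => v
  left_inv := by
    intro v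
    cases v with
    | row k q =>
      by_cases h : p < q <;> simp [h]
    | _ => rfl
  right_inv := by
    intro v
    cases v with
    | row k q =>
      by_cases h : p < q <;> simp [h]
    | _ => rfl

lemma Phi_row (m d : ℕ) (p : Fin (d + 1)) (i j k : Fin (m + 1)) (q : Fin (d + 1)) :
    Phi m d p i j (.row k q) = if p < q then .row (swap i j k) q else .row k q := rfl

lemma Phi_Phi (m d : ℕ) (p : Fin (d + 1)) (i j : Fin (m + 1)) (v : Vx m d) :
    Phi m d p i j (Phi m d p i j v) = v := (Phi m d p i j).left_inv v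

/-- edges are preserved away from the two deleted vertices -/
lemma Phi_E {m d : ℕ} {p : Fin (d + 1)} {i j : Fin (m + 1)} (σ : Perm (Fin (m + 1)))
    {u v : Vx m d} (hu : u ≠ .row i p ∧ u ≠ .row j p) (hv : v ≠ .row i p ∧ v ≠ .row j p)
    (h : E σ u v) : E (σ * swap i j) (Phi m d p i j u) (Phi m d p i j v) := by
  cases u with
  | row a q =>
    cases v with
    | row b q' =>
      obtain ⟨rfl, hq⟩ := h
      rw [Phi_row, Phi_row]
      by_cases h1 : p < q
      · have h2 : p < q' := by
          rw [Fin.lt_def] at h1 ⊢; omega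
        rw [if_pos h1, if_pos h2]
        exact ⟨rfl, hq⟩
      · rw [if_neg h1]
        by_cases h2 : p < q'
        · have hpq : q = p := by
            rw [Fin.lt_def] at h1 h2
            apply Fin.ext; omega
          subst hpq
          rw [if_pos h2]
          have h3 : swap i j a = a := by
            apply swap_apply_of_ne_of_ne
            · rintro rfl; exact hu.1 rfl
            · rintro rfl; exact hu.2 rfl
          rw [h3]
          exact ⟨rfl, hq⟩
        · rw [if_neg h2]
          exact ⟨rfl, hq⟩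
    | l b =>
      obtain ⟨rfl, rfl, h0⟩ := h
      rw [Phi_row, if_neg (by simp)]
      exact ⟨rfl, rfl, h0⟩
    | P =>
      obtain ⟨rfl, rfl⟩ := h
      rw [Phi_row, if_neg (by simp)]
      exact ⟨rfl, rfl⟩
    | r b =>
      obtain ⟨rfl, rfl⟩ := h
      rw [Phi_row]
      by_cases h1 : p < Fin.last d
      · rw [if_pos h1]
        exact ⟨rfl, by simp⟩
      · rw [if_neg h1]
        have hp : p = Fin.last d := by
          rw [not_lt] at h1
          exact le_antisymm (Fin.le_last p) h1
        subst hp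
        have h3 : swap i j a = a := by
          apply swap_apply_of_ne_of_ne
          · rintro rfl; exact hu.1 rfl
          · rintro rfl; exact hu.2 rfl
        exact ⟨rfl, by simp [h3]⟩
    | Q => exact h.elim
    | O => exact h.elim
    | w g k j c => exact h.elim
  | l a => cases v <;> first | exact h.elim | exact h
  | r a => cases v <;> first | exact h.elim | exact h
  | P => cases v <;> first | exact h.elim | exact h
  | Q => cases v <;> first | exact h.elim | exact h
  | O => cases v <;> first | exact h.elim | exact h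
  | w g k j c => cases v <;> first | exact h.elim | exact h


/-- the induced graphs agree after the exchange of tails -/
lemma Phi_iso {m d : ℕ} {p : Fin (d + 1)} {i j : Fin (m + 1)} (σ : Perm (Fin (m + 1)))
    (S : Finset (Vx m d)) (hi : Vx.row i p ∉ S) (hj : Vx.row j p ∉ S) :
    Nonempty ((Gr m d σ).induce (S : Set (Vx m d)) ≃g
      (Gr m d (σ * swap i j)).induce ((S.map (Phi m d p i j).toEmbedding : Finset (Vx m d)) :
        Set (Vx m d))) := by
  have hne : ∀ u : Vx m d, u ∈ S → u ≠ .row i p ∧ u ≠ .row j p := by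
    intro u hu
    exact ⟨fun h => hi (h ▸ hu), fun h => hj (h ▸ hu)⟩
  have hfix : ∀ x : Fin (m + 1), Phi m d p i j (.row x p) = .row x p := by
    intro x
    rw [Phi_row, if_neg (lt_irrefl _)]
  have hne' : ∀ u : Vx m d, u ∈ S →
      Phi m d p i j u ≠ .row i p ∧ Phi m d p i j u ≠ .row j p := by
    intro u hu
    constructor
    · intro h
      rw [← hfix i] at h
      exact (hne u hu).1 ((Phi m d p i j).injective h)
    · intro h
      rw [← hfix j] at h
      exact (hne u hu).2 ((Phi m d p i j).injective h)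
  have hE : ∀ u v : Vx m d, u ∈ S → v ∈ S →
      (E (σ * swap i j) (Phi m d p i j u) (Phi m d p i j v) ↔ E σ u v) := by
    intro u v hu hv
    constructor
    · intro h
      have := Phi_E (σ * swap i j) (hne' u hu) (hne' v hv) h
      rwa [Phi_Phi, Phi_Phi, mul_assoc, swap_mul_self, mul_one] at this
    · exact Phi_E σ (hne u hu) (hne v hv)
  refine ⟨⟨⟨fun u => ⟨Phi m d p i j u.1, ?_⟩, fun u => ⟨Phi m d p i j u.1, ?_⟩, ?_, ?_⟩, ?_⟩⟩
  · have := u.2
    simp only [Finset.coe_map, Equiv.coe_toEmbedding]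
    exact ⟨u.1, u.2, rfl⟩
  · have := u.2
    simp only [Finset.coe_map, Equiv.coe_toEmbedding] at this
    obtain ⟨w, hw, h⟩ := this
    rw [← h, Phi_Phi]
    exact hw
  · intro u
    apply Subtype.ext
    exact Phi_Phi _ _ _ _ _ _
  · intro u
    apply Subtype.ext
    exact Phi_Phi _ _ _ _ _ _
  · intro u v
    show (E _ _ _ ∨ E _ _ _) ↔ (E _ _ _ ∨ E _ _ _)
    exact or_congr (hE u.1 v.1 u.2 v.2) (hE v.1 u.1 v.2 u.2)

/-- the rows missing in column `p` -/
noncomputable def miss {m d : ℕ} (S : Finset (Vx m d)) (p : Fin (d + 1)) : Finset (Fin (m + 1)) :=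
  Finset.univ.filter fun i => Vx.row i p ∉ S

lemma mem_miss {m d : ℕ} {S : Finset (Vx m d)} {p : Fin (d + 1)} {i : Fin (m + 1)} :
    i ∈ miss S p ↔ Vx.row i p ∉ S := by simp [miss]

open Classical in
/-- two different elements of a set, depending only on the set -/
noncomputable def pick {m : ℕ} (M : Finset (Fin (m + 1))) : Fin (m + 1) × Fin (m + 1) :=
  if h : ∃ x : Fin (m + 1) × Fin (m + 1), x.1 ∈ M ∧ x.2 ∈ M ∧ x.1 ≠ x.2 then h.choose else (0, 0)

lemma pick_spec {m : ℕ} {M : Finset (Fin (m + 1))} (h : 1 < M.card) :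
    (pick M).1 ∈ M ∧ (pick M).2 ∈ M ∧ (pick M).1 ≠ (pick M).2 := by
  have h' : ∃ x : Fin (m + 1) × Fin (m + 1), x.1 ∈ M ∧ x.2 ∈ M ∧ x.1 ≠ x.2 := by
    obtain ⟨a, b, ha, hb, hab⟩ := Finset.one_lt_card_iff.1 h
    exact ⟨(a, b), ha, hb, hab⟩
  unfold pick
  rw [dif_pos h']
  exact h'.choose_spec

/-- the set is small enough: two vertices of some column are missing -/
def Has {m d : ℕ} (S : Finset (Vx m d)) : Prop := ∃ p : Fin (d + 1), 1 < (miss S p).card

open Classical in
/-- the first column with two missing vertices -/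
noncomputable def col {m d : ℕ} (S : Finset (Vx m d)) : Fin (d + 1) :=
  if h : (Finset.univ.filter fun p : Fin (d + 1) => 1 < (miss S p).card).Nonempty then
    (Finset.univ.filter fun p : Fin (d + 1) => 1 < (miss S p).card).min' h else 0

lemma col_spec {m d : ℕ} {S : Finset (Vx m d)} (h : Has S) :
    1 < (miss S (col S)).card ∧ ∀ q < col S, ¬ 1 < (miss S q).card := by
  classical
  obtain ⟨p, hp⟩ := h
  have hne : (Finset.univ.filter fun p : Fin (d + 1) => 1 < (miss S p).card).Nonempty :=
    ⟨p, by simpa using hp⟩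
  have hcol : col S = (Finset.univ.filter fun p : Fin (d + 1) => 1 < (miss S p).card).min' hne := by
    unfold col
    rw [dif_pos hne]
  constructor
  · have := Finset.min'_mem _ hne
    rw [← hcol] at this
    simpa using this
  · intro q hq h1
    have := Finset.min'_le (Finset.univ.filter fun p : Fin (d + 1) => 1 < (miss S p).card) q
      (by simpa using h1)
    rw [← hcol] at this
    exact absurd hq (not_lt.2 this)

lemma col_unique {m d : ℕ} {S : Finset (Vx m d)} {p : Fin (d + 1)} (h1 : 1 < (miss S p).card)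
    (h2 : ∀ q < p, ¬ 1 < (miss S q).card) : col S = p := by
  have h := col_spec (⟨p, h1⟩ : Has S)
  rcases lt_trichotomy (col S) p with h3 | h3 | h3
  · exact absurd h.1 (h2 _ h3)
  · exact h3
  · exact absurd h1 (h.2 _ h3)

/-- the tail swap of a set -/
noncomputable def T {m d : ℕ} (S : Finset (Vx m d)) : Finset (Vx m d) :=
  S.map (Phi m d (col S) (pick (miss S (col S))).1 (pick (miss S (col S))).2).toEmbedding

/-- the transposition of the tail swap -/
noncomputable def tau {m d : ℕ} (S : Finset (Vx m d)) : Perm (Fin (m + 1)) :=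
  swap (pick (miss S (col S))).1 (pick (miss S (col S))).2

lemma miss_map {m d : ℕ} (S : Finset (Vx m d)) (p : Fin (d + 1)) (i j : Fin (m + 1))
    {q : Fin (d + 1)} (hq : q ≤ p) :
    miss (S.map (Phi m d p i j).toEmbedding) q = miss S q := by
  ext x
  rw [mem_miss, mem_miss, not_iff_not, Finset.mem_map]
  have hfix : Phi m d p i j (.row x q) = .row x q := by
    rw [Phi_row, if_neg (not_lt.2 hq)]
  constructor
  · rintro ⟨v, hv, h⟩
    rw [Equiv.coe_toEmbedding, ← hfix] at h
    rwa [← (Phi m d p i j).injective h]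
  · intro h
    exact ⟨_, h, hfix⟩

lemma miss_T {m d : ℕ} (S : Finset (Vx m d)) {q : Fin (d + 1)} (hq : q ≤ col S) :
    miss (T S) q = miss S q := miss_map S _ _ _ hq

lemma col_T {m d : ℕ} {S : Finset (Vx m d)} (h : Has S) : col (T S) = col S := by
  obtain ⟨h1, h2⟩ := col_spec h
  apply col_unique
  · rwa [miss_T S le_rfl]
  · intro q hq
    rw [miss_T S hq.le]
    exact h2 q hq

lemma tau_T {m d : ℕ} {S : Finset (Vx m d)} (h : Has S) : tau (T S) = tau S := by
  unfold tau
  rw [col_T h, miss_T S le_rfl]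

lemma T_T {m d : ℕ} {S : Finset (Vx m d)} (h : Has S) : T (T S) = S := by
  have h1 : T (T S) = (T S).map (Phi m d (col S) (pick (miss S (col S))).1
      (pick (miss S (col S))).2).toEmbedding := by
    show (T S).map (Phi m d (col (T S)) (pick (miss (T S) (col (T S)))).1
      (pick (miss (T S) (col (T S)))).2).toEmbedding = _
    rw [col_T h, miss_T S le_rfl]
  rw [h1]
  show (S.map _).map _ = S
  rw [Finset.map_map]
  convert Finset.map_refl (s := S)
  ext v
  exact Phi_Phi _ _ _ _ _ _

lemma Has_T {m d : ℕ} {S : Finset (Vx m d)} (h : Has S) : Has (T S) := by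
  refine ⟨col S, ?_⟩
  rw [miss_T S le_rfl]
  exact (col_spec h).1

lemma card_T {m d : ℕ} (S : Finset (Vx m d)) : (T S).card = S.card := Finset.card_map _

lemma sign_tau {m d : ℕ} {S : Finset (Vx m d)} (h : Has S) : Perm.sign (tau S) = -1 :=
  Perm.sign_swap (pick_spec (col_spec h).1).2.2

lemma T_iso {m d : ℕ} (σ : Perm (Fin (m + 1))) {S : Finset (Vx m d)} (h : Has S) :
    Nonempty ((Gr m d σ).induce (S : Set (Vx m d)) ≃g
      (Gr m d (σ * tau S)).induce ((T S : Finset (Vx m d)) : Set (Vx m d))) := by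
  obtain ⟨h1, h2, -⟩ := pick_spec (col_spec h).1
  exact Phi_iso σ S (mem_miss.1 h1) (mem_miss.1 h2)

/-- a set with fewer than `m (d+1)` vertices misses two vertices in some column -/
lemma Has_of_card {m d : ℕ} {S : Finset (Vx m d)} (h : S.card < m * (d + 1)) : Has S := by
  classical
  by_contra hno
  have h1 : ∀ p : Fin (d + 1), (miss S p).card ≤ 1 := by
    intro p
    by_contra h2
    exact hno ⟨p, by omega⟩
  have h2 : ∀ p : Fin (d + 1), m ≤ (Finset.univ.filter fun i => Vx.row i p ∈ S).card := by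
    intro p
    have h3 : (Finset.univ.filter fun i : Fin (m + 1) => Vx.row i p ∈ S).card +
        (Finset.univ.filter fun i : Fin (m + 1) => ¬ Vx.row i p ∈ S).card = m + 1 := by
      rw [Finset.card_filter_add_card_filter_not]
      simp
    have h4 : (Finset.univ.filter fun i : Fin (m + 1) => ¬ Vx.row i p ∈ S).card ≤ 1 := h1 p
    omega
  have h3 : (Finset.univ.sigma fun p : Fin (d + 1) =>
      Finset.univ.filter fun i : Fin (m + 1) => Vx.row i p ∈ S).card ≤ S.card := by
    apply Finset.card_le_card_of_injOn (fun x => Vx.row x.2 x.1)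
    · intro x hx
      simpa using hx
    · rintro ⟨p, i⟩ - ⟨q, j⟩ - hxy
      simp only [Vx.row.injEq] at hxy
      obtain ⟨rfl, rfl⟩ := hxy
      rfl
  rw [Finset.card_sigma] at h3
  have h4 : ∑ p : Fin (d + 1), m ≤ ∑ p : Fin (d + 1),
      (Finset.univ.filter fun i : Fin (m + 1) => Vx.row i p ∈ S).card :=
    Finset.sum_le_sum fun p _ => h2 p
  rw [Finset.sum_const, Finset.card_univ, Fintype.card_fin, smul_eq_mul] at h4
  have : m * (d + 1) = (d + 1) * m := Nat.mul_comm _ _
  omega

lemma map_iso {V W : Type*} {G : SimpleGraph V} {G' : SimpleGraph W} (e : G ≃g G')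
    (S : Finset V) : Nonempty (G.induce (S : Set V) ≃g
      G'.induce ((S.map e.toEquiv.toEmbedding : Finset W) : Set W)) := by
  refine ⟨⟨⟨fun u => ⟨e u.1, ?_⟩, fun u => ⟨e.symm u.1, ?_⟩, ?_, ?_⟩, ?_⟩⟩
  · simp only [Finset.coe_map, Equiv.coe_toEmbedding]
    exact ⟨u.1, u.2, rfl⟩
  · have := u.2
    simp only [Finset.coe_map, Equiv.coe_toEmbedding] at this
    obtain ⟨w, hw, h⟩ := this
    rw [← h]
    have : e.symm (e.toEquiv w) = w := e.toEquiv.symm_apply_apply w
    rw [this]
    exact hw
  · intro u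
    apply Subtype.ext
    exact e.toEquiv.symm_apply_apply _
  · intro u
    apply Subtype.ext
    exact e.toEquiv.apply_symm_apply _
  · intro u v
    exact e.map_rel_iff

/-- `indCount` is invariant under isomorphism -/
lemma indCount_iso {V W : Type*} {G : SimpleGraph V} {G' : SimpleGraph W} (e : G ≃g G') {t : ℕ}
    (F : SimpleGraph (Fin t)) : indCount G F = indCount G' F := by
  unfold indCount
  apply Set.ncard_congr (fun S _ => S.map e.toEquiv.toEmbedding)
  · rintro S ⟨hS, ⟨f⟩⟩
    obtain ⟨φ⟩ := map_iso e S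
    exact ⟨by rw [Finset.card_map, hS], ⟨φ.symm.trans f⟩⟩
  · intro S S' _ _ h
    exact Finset.map_injective _ h
  · rintro S ⟨hS, ⟨f⟩⟩
    obtain ⟨φ⟩ := map_iso e.symm S
    refine ⟨S.map e.symm.toEquiv.toEmbedding, ⟨by rw [Finset.card_map, hS], ⟨φ.symm.trans f⟩⟩, ?_⟩
    ext v
    simp only [Finset.mem_map, Equiv.coe_toEmbedding]
    constructor
    · rintro ⟨a, ⟨b, hb, rfl⟩, rfl⟩
      have : e.toEquiv (e.symm.toEquiv b) = b := e.toEquiv.apply_symm_apply b
      rwa [this]
    · intro hv
      exact ⟨e.symm.toEquiv v, ⟨v, hv, rfl⟩, e.toEquiv.apply_symm_apply v⟩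

/-- multiplying by an even permutation gives an isomorphic graph -/
noncomputable def rho {m d : ℕ} (ρ : Gd m) : Perm (Vx m d) where
  toFun
    | .r j => .r (ρ.1 j)
    | .w g k j c => .w ⟨ρ.1 * g.1, by rw [map_mul, ρ.2, g.2, one_mul]⟩ k j c
    | v => v
  invFun
    | .r j => .r (ρ.1⁻¹ j)
    | .w g k j c => .w ⟨ρ.1⁻¹ * g.1, by rw [map_mul, map_inv, ρ.2, g.2, inv_one, one_mul]⟩ k j c
    | v => v
  left_inv := by
    intro v
    cases v with
    | r j => simp
    | w g k j c => simp
    | _ => rfl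
  right_inv := by
    intro v
    cases v with
    | r j => simp
    | w g k j c => simp
    | _ => rfl

lemma rho_E {m d : ℕ} (ρ : Gd m) (σ : Perm (Fin (m + 1))) (u v : Vx m d) :
    E (ρ.1 * σ) (rho ρ u) (rho ρ v) ↔ E σ u v := by
  cases u with
  | row a q => cases v <;> simp [rho, E]
  | l a => cases v <;> simp [rho, E]
  | r a => cases v <;> simp [rho, E]
  | P => cases v <;> simp [rho, E]
  | Q => cases v <;> simp [rho, E]
  | O => cases v <;> simp [rho, E]
  | w g k j c =>
    cases v with
    | w g' k' j' c' =>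
      simp only [rho, E, Equiv.coe_fn_mk]
      have : (⟨ρ.1 * g.1, by rw [map_mul, ρ.2, g.2, one_mul]⟩ : Gd m) =
          ⟨ρ.1 * g'.1, by rw [map_mul, ρ.2, g'.2, one_mul]⟩ ↔ g = g' := by
        rw [Subtype.mk.injEq, mul_right_inj, Subtype.ext_iff]
      rw [this]
    | _ => simp [rho, E]

lemma rho_iso (m d : ℕ) (ρ : Gd m) (σ : Perm (Fin (m + 1))) :
    Nonempty (Gr m d σ ≃g Gr m d (ρ.1 * σ)) := by
  refine ⟨⟨rho ρ, ?_⟩⟩
  intro u v
  show (E _ _ _ ∨ E _ _ _) ↔ (E _ _ _ ∨ E _ _ _)
  rw [rho_E, rho_E]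

lemma indCount_eq {m d t : ℕ} (F : SimpleGraph (Fin t)) {σ σ' : Perm (Fin (m + 1))}
    (h : Perm.sign σ = Perm.sign σ') : indCount (Gr m d σ) F = indCount (Gr m d σ') F := by
  have h1 : Perm.sign (σ' * σ⁻¹) = 1 := by
    rw [map_mul, map_inv, h, mul_inv_cancel]
  obtain ⟨e⟩ := rho_iso m d ⟨σ' * σ⁻¹, h1⟩ σ
  rw [indCount_iso e F]
  congr 2
  simp

open Classical in
/-- **Equality of decks.** -/
theorem deck_eq {m d t : ℕ} (hm : 1 ≤ m) (ht : t < m * (d + 1)) (F : SimpleGraph (Fin t))
    {σ σ' : Perm (Fin (m + 1))} : indCount (Gr m d σ) F = indCount (Gr m d σ') F := by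
  -- the two sets of pairs
  let X : ℤˣ → Finset (Perm (Fin (m + 1)) × Finset (Vx m d)) := fun s =>
    Finset.univ.filter fun x => Perm.sign x.1 = s ∧ x.2.card = t ∧
      Nonempty ((Gr m d x.1).induce (x.2 : Set (Vx m d)) ≃g F)
  have hX : (X 1).card = (X (-1)).card := by
    have key : ∀ s : ℤˣ, ∀ x ∈ X s, (x.1 * tau x.2, T x.2) ∈ X (-s) := by
      intro s x hx
      simp only [X, Finset.mem_filter, Finset.mem_univ, true_and] at hx ⊢
      obtain ⟨h1, h2, ⟨h3⟩⟩ := hx
      have hh : Has x.2 := Has_of_card (by rw [h2]; exact ht)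
      refine ⟨by rw [map_mul, h1, sign_tau hh, mul_neg_one], by rw [card_T, h2], ?_⟩
      obtain ⟨φ⟩ := T_iso x.1 hh
      exact ⟨φ.symm.trans h3⟩
    have inv : ∀ s : ℤˣ, ∀ x ∈ X s, (x.1 * tau x.2 * tau (T x.2), T (T x.2)) = x := by
      intro s x hx
      simp only [X, Finset.mem_filter, Finset.mem_univ, true_and] at hx
      obtain ⟨h1, h2, ⟨h3⟩⟩ := hx
      have hh : Has x.2 := Has_of_card (by rw [h2]; exact ht)
      rw [tau_T hh, T_T hh, mul_assoc, tau, swap_mul_self, mul_one]
    exact Finset.card_bij' (fun x _ => (x.1 * tau x.2, T x.2))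
      (fun x _ => (x.1 * tau x.2, T x.2)) (key 1)
      (fun x hx => by
        have := key (-1) x hx
        rwa [neg_neg] at this) (inv 1) (inv (-1))
  -- the number of pairs
  have hcount : ∀ (s : ℤˣ) (σ : Perm (Fin (m + 1))), Perm.sign σ = s →
      (X s).card = (Finset.univ.filter fun x : Perm (Fin (m + 1)) => Perm.sign x = s).card *
        indCount (Gr m d σ) F := by
    intro s σ hσ
    have h1 : X s = (Finset.univ.filter fun x : Perm (Fin (m + 1)) => Perm.sign x = s).biUnion
        fun x => (Finset.univ.filter fun S : Finset (Vx m d) => S.card = t ∧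
          Nonempty ((Gr m d x).induce (S : Set (Vx m d)) ≃g F)).map ⟨fun S => (x, S),
            fun S S' h => (Prod.mk.inj h).2⟩ := by
      ext ⟨x, S⟩
      simp only [X, Finset.mem_filter, Finset.mem_univ, true_and, Finset.mem_biUnion,
        Finset.mem_map]
      constructor
      · rintro ⟨h1, h2⟩
        exact ⟨x, h1, S, h2, rfl⟩
      · rintro ⟨y, h1, S', h2, h3⟩
        obtain ⟨rfl, rfl⟩ := Prod.mk.inj h3
        exact ⟨h1, h2⟩
    rw [h1, Finset.card_biUnion]
    · rw [Finset.sum_congr rfl (g := fun _ => indCount (Gr m d σ) F), Finset.sum_const, smul_eq_mul]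
      intro x hx
      rw [Finset.mem_filter] at hx
      rw [Finset.card_map, ← indCount_eq F (hx.2.trans hσ.symm)]
      unfold indCount
      rw [Set.ncard_eq_toFinset_card']
      congr 1
      ext S
      simp
    · intro x _ y _ hxy
      show Disjoint (Finset.map _ _) (Finset.map _ _)
      rw [Finset.disjoint_left]
      rintro ⟨z, S⟩ h1 h2
      simp only [Finset.mem_map] at h1 h2
      obtain ⟨_, _, h1⟩ := h1
      obtain ⟨_, _, h2⟩ := h2
      exact hxy ((Prod.mk.inj h1).1.trans (Prod.mk.inj h2).1.symm)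
  have h01 : (0 : Fin (m + 1)) ≠ Fin.last m := by
    intro h
    have := congrArg Fin.val h
    simp at this
    omega
  have hcard : (Finset.univ.filter fun x : Perm (Fin (m + 1)) => Perm.sign x = 1).card =
      (Finset.univ.filter fun x : Perm (Fin (m + 1)) => Perm.sign x = -1).card := by
    have hs : Perm.sign (swap (0 : Fin (m + 1)) (Fin.last m)) = -1 := Perm.sign_swap h01
    apply Finset.card_bij' (fun x _ => x * swap 0 (Fin.last m)) (fun x _ => x * swap 0 (Fin.last m))
    · intro x hx
      simp only [Finset.mem_filter, Finset.mem_univ, true_and] at hx ⊢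
      rw [map_mul, hx, hs, one_mul]
    · intro x hx
      simp only [Finset.mem_filter, Finset.mem_univ, true_and] at hx ⊢
      rw [map_mul, hx, hs]
      rfl
    · intro x _
      simp [mul_assoc]
    · intro x _
      simp [mul_assoc]
  have hpos : 0 < (Finset.univ.filter fun x : Perm (Fin (m + 1)) => Perm.sign x = 1).card :=
    Finset.card_pos.2 ⟨1, by simp⟩
  -- compare an even and an odd one
  have hmain : ∀ σ σ' : Perm (Fin (m + 1)), Perm.sign σ = 1 → Perm.sign σ' = -1 →
      indCount (Gr m d σ) F = indCount (Gr m d σ') F := by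
    intro σ σ' h1 h2
    have e1 := hcount 1 σ h1
    have e2 := hcount (-1) σ' h2
    rw [← hcard, ← hX, e1] at e2
    exact Nat.eq_of_mul_eq_mul_left hpos e2
  rcases Int.units_eq_one_or (Perm.sign σ) with h1 | h1 <;>
    rcases Int.units_eq_one_or (Perm.sign σ') with h2 | h2
  · exact indCount_eq F (h1.trans h2.symm)
  · exact hmain σ σ' h1 h2
  · exact (hmain σ' σ h2 h1).symm
  · exact indCount_eq F (h1.trans h2.symm)

end Pool.Agent.Q296.HD
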