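import Pool.Agent.Q296.HD.Non

/-! The graph `G_1` is Hamiltonian. -/

namespace Pool.Agent.Q296.HD

open Equiv

lemma ham_of_succ {V : Type*} [Finite V] {G : SimpleGraph V} (f : V → V) (x0 : V)
    (hreach : ∀ v, ∃ n, f^[n] x0 = v) (hx0 : ∃ y, f y = x0) (hadj : ∀ v, G.Adj v (f v))
    (h3 : ∃ a b c : V, a ≠ b ∧ a ≠ c ∧ b ≠ c) :
    ∃ H : SimpleGraph V, H ≤ G ∧ H.Connected ∧ ∀ v, (H.neighborSet v).ncard = 2 := by
  have hsurj : Function.Surjective f := by
    intro v
    obtain ⟨n, hn⟩ := hreach v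
    cases n with
    | zero =>
      obtain ⟨y, hy⟩ := hx0
      exact ⟨y, by rw [hy, ← hn]; rfl⟩
    | succ n =>
      rw [Function.iterate_succ_apply'] at hn
      exact ⟨_, hn⟩
  have hinj : Function.Injective f := Finite.injective_iff_surjective.2 hsurj
  let H : SimpleGraph V :=
    { Adj := fun u v => f u = v ∨ f v = u
      symm := ⟨fun _ _ h => h.symm⟩
      loopless := ⟨fun v h => by
        have := hadj v
        rcases h with h | h
        · rw [h] at this; exact this.ne rfl
        · rw [h] at this; exact this.ne rfl⟩ }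
  have hle : H ≤ G := by
    intro u v h
    rcases h with h | h
    · rw [← h]; exact hadj u
    · rw [← h]; exact (hadj v).symm
  have hconn : H.Connected := by
    have hr : ∀ n, H.Reachable x0 (f^[n] x0) := by
      intro n
      induction n with
      | zero => exact SimpleGraph.Reachable.refl _
      | succ n ih =>
        rw [Function.iterate_succ_apply']
        exact ih.trans (SimpleGraph.Adj.reachable (Or.inl rfl))
    have : Nonempty V := ⟨x0⟩
    refine ⟨?_⟩
    intro u v
    obtain ⟨n, rfl⟩ := hreach u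
    obtain ⟨k, rfl⟩ := hreach v
    exact (hr n).symm.trans (hr k)
  refine ⟨H, hle, hconn, fun v => ?_⟩
  obtain ⟨u, hu⟩ := hsurj v
  have hs : H.neighborSet v = {f v, u} := by
    ext w
    simp only [Set.mem_insert_iff, Set.mem_singleton_iff]
    constructor
    · rintro (h | h)
      · exact Or.inl h.symm
      · exact Or.inr (hinj (h.trans hu.symm))
    · rintro (rfl | rfl)
      · exact Or.inl rfl
      · exact Or.inr hu
  rw [hs]
  apply Set.ncard_pair
  intro hfu
  -- everything is `v` or `f v`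
  have hall : ∀ w, w ∈ ({v, f v} : Set V) := by
    apply closed_all hconn (u := v) (by simp)
    intro x hx y hy
    have hffv : f (f v) = v := by rw [hfu, hu]
    rcases hx with rfl | rfl
    · rcases hy with h | h
      · right; exact h.symm
      · right
        apply hinj
        rw [h, hffv]
    · rcases hy with h | h
      · left; rw [← h, hffv]
      · left; exact hinj h
  obtain ⟨a, b, c, hab, hac, hbc⟩ := h3
  rcases hall a with rfl | rfl <;> rcases hall b with rfl | rfl <;> rcases hall c with rfl | rfl <;>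
    simp_all

section

variable {m d n0 : ℕ}

/-- a step on the gadget which is on -/
def onstep (g : Gd m) (k : Fin (m + 1)) : Fin 3 → Fin 3 → Vx m d
  | 0, 2 => .w g k 0 1
  | 0, 1 => .w g k 0 0
  | 0, 0 => .w g k 1 0
  | 1, 0 => .w g k 1 1
  | 1, 1 => .w g k 1 2
  | 1, 2 => .w g k 2 2
  | 2, 2 => .w g k 2 1
  | 2, 1 => .w g k 2 0
  | 2, 0 => .r (g.1 k)

/-- the step from the last vertex of a wire of an off gadget -/
def nxt (e : Gd m ≃ Fin (n0 + 2)) (g : Gd m) (k : Fin (m + 1)) : Vx m d :=
  if k = Fin.last m then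
    if e g = Fin.last (n0 + 1) then .Q else .w (e.symm (e g + 1)) 0 0 0
  else .w g (k + 1) 0 0

/-- a step on a gadget which is off -/
def offstep (e : Gd m ≃ Fin (n0 + 2)) (g : Gd m) (k : Fin (m + 1)) : Fin 3 → Fin 3 → Vx m d
  | 0, 0 => .w g k 0 1
  | 0, 1 => .w g k 0 2
  | 0, 2 => .w g k 1 2
  | 1, 2 => .w g k 1 1
  | 1, 1 => .w g k 1 0
  | 1, 0 => .w g k 2 0
  | 2, 0 => .w g k 2 1
  | 2, 1 => .w g k 2 2
  | 2, 2 => nxt e g k

/-- the successor on the Hamilton cycle -/
def sc (c : Gd m) (e : Gd m ≃ Fin (n0 + 2)) : Vx m d → Vx m d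
  | .P => .w (e.symm 1) 0 0 0
  | .Q => .O
  | .O => .l 0
  | .l i => .w c i 0 2
  | .r j => .row j (Fin.last d)
  | .row i p => if p = 0 then (if i = 0 then .P else .l i) else
      .row i ⟨(p : ℕ) - 1, by omega⟩
  | .w g k j c' => if g = c then onstep g k j c' else offstep e g k j c'

lemma sc_adj (c : Gd m) (e : Gd m ≃ Fin (n0 + 2)) (v : Vx m d) :
    (Gr m d 1).Adj v (sc c e v) := by
  cases v with
  | P => exact Or.inl ⟨rfl, rfl, rfl⟩
  | Q => exact Or.inl trivial
  | O => exact Or.inl rfl
  | l i => exact Or.inl ⟨rfl, rfl, rfl⟩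
  | r j => exact Or.inr ⟨rfl, rfl⟩
  | row i p =>
    unfold sc
    by_cases hp : p = 0
    · by_cases hi : i = 0
      · simp only [hp, hi, if_true]
        exact Or.inl ⟨rfl, rfl⟩
      · simp only [hp, hi, if_true, if_false]
        exact Or.inl ⟨rfl, rfl, hi⟩
    · simp only [hp, if_false]
      refine Or.inr ⟨rfl, ?_⟩
      have : (p : ℕ) ≠ 0 := fun h => hp (Fin.ext h)
      show (p : ℕ) - 1 + 1 = p
      omega
  | w g k j c' =>
    show (Gr m d 1).Adj (.w g k j c') (if g = c then onstep g k j c' else offstep e g k j c')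
    by_cases hg : g = c
    · rw [if_pos hg]
      fin_cases j <;> fin_cases c'
      · exact Or.inl (Or.inl ⟨rfl, rfl, by decide⟩)
      · exact Or.inr (Or.inl ⟨rfl, rfl, by decide⟩)
      · exact Or.inr (Or.inl ⟨rfl, rfl, by decide⟩)
      · exact Or.inl (Or.inl ⟨rfl, rfl, by decide⟩)
      · exact Or.inl (Or.inl ⟨rfl, rfl, by decide⟩)
      · exact Or.inl (Or.inl ⟨rfl, rfl, by decide⟩)
      · exact Or.inr ⟨rfl, rfl, rfl⟩
      · exact Or.inr (Or.inl ⟨rfl, rfl, by decide⟩)
      · exact Or.inr (Or.inl ⟨rfl, rfl, by decide⟩)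
    · rw [if_neg hg]
      fin_cases j <;> fin_cases c'
      · exact Or.inl (Or.inl ⟨rfl, rfl, by decide⟩)
      · exact Or.inl (Or.inl ⟨rfl, rfl, by decide⟩)
      · exact Or.inl (Or.inl ⟨rfl, rfl, by decide⟩)
      · exact Or.inl (Or.inl ⟨rfl, rfl, by decide⟩)
      · exact Or.inr (Or.inl ⟨rfl, rfl, by decide⟩)
      · exact Or.inr (Or.inl ⟨rfl, rfl, by decide⟩)
      · exact Or.inl (Or.inl ⟨rfl, rfl, by decide⟩)
      · exact Or.inl (Or.inl ⟨rfl, rfl, by decide⟩)
      · show (Gr m d 1).Adj (.w g k 2 2) (nxt e g k)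
        unfold nxt
        by_cases hk : k = Fin.last m
        · rw [if_pos hk]
          by_cases he : e g = Fin.last (n0 + 1)
          · rw [if_pos he]
            exact Or.inr ⟨hk, rfl, rfl⟩
          · rw [if_neg he]
            exact Or.inl (Or.inr ⟨⟨rfl, rfl, rfl, rfl⟩, Or.inr ⟨hk, rfl⟩⟩)
        · rw [if_neg hk]
          refine Or.inl (Or.inr ⟨⟨rfl, rfl, rfl, rfl⟩, Or.inl ⟨rfl, ?_⟩⟩)
          rw [Fin.val_add_one_of_lt (Fin.lt_last_iff_ne_last.2 hk)]

/-- **The graph `G_1` is Hamiltonian** for even `m ≥ 2`. -/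
theorem ham (hm : Even m) (hm0 : m ≠ 0) :
    ∃ H : SimpleGraph (Vx m d), H ≤ Gr m d 1 ∧ H.Connected ∧
      ∀ v, (H.neighborSet v).ncard = 2 := by
  classical
  have hsign : Perm.sign (finRotate (m + 1)) = 1 := by
    rw [sign_finRotate, Nat.add_sub_cancel, hm.neg_one_pow]
  let c : Gd m := ⟨finRotate (m + 1), hsign⟩
  have hc1 : c ≠ ⟨1, by simp⟩ := by
    intro h
    have h1 : finRotate (m + 1) = 1 := congrArg Subtype.val h
    have h2 : finRotate (m + 1) 0 = 0 := by rw [h1]; rfl
    rw [finRotate_apply] at h2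
    have := congrArg Fin.val h2
    rw [zero_add] at this
    have h3 : (1 : Fin (m + 1)).val = 1 := by
      rw [Fin.val_one']
      exact Nat.mod_eq_of_lt (by omega)
    rw [h3] at this
    exact absurd this (by simp)
  -- enumerate the gadgets with `c` first
  obtain ⟨n0, hn0⟩ : ∃ n0, Fintype.card (Gd m) = n0 + 2 := by
    have : 1 < Fintype.card (Gd m) := Fintype.one_lt_card_iff.2 ⟨_, _, hc1⟩
    exact ⟨Fintype.card (Gd m) - 2, by omega⟩
  let e0 : Gd m ≃ Fin (n0 + 2) := Fintype.equivFinOfCardEq hn0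
  let e : Gd m ≃ Fin (n0 + 2) := e0.trans (swap (e0 c) 0)
  have hec : e c = 0 := by simp [e]
  let f : Vx m d → Vx m d := sc c e
  have Rs : ∀ {u v : Vx m d}, (∃ n, f^[n] .P = u) → f u = v → ∃ n, f^[n] .P = v := by
    rintro u v ⟨n, rfl⟩ rfl
    exact ⟨n + 1, by rw [Function.iterate_succ_apply']⟩
  -- off wires
  have offw : ∀ (g : Gd m) (k : Fin (m + 1)), g ≠ c → (∃ n, f^[n] .P = .w g k 0 0) →
      ∀ j c', ∃ n, f^[n] .P = .w g k j c' := by
    intro g k hg h00
    have h01 : ∃ n, f^[n] .P = .w g k 0 1 := Rs h00 (by simp only [f, sc, if_neg hg]; rfl)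
    have h02 : ∃ n, f^[n] .P = .w g k 0 2 := Rs h01 (by simp only [f, sc, if_neg hg]; rfl)
    have h12 : ∃ n, f^[n] .P = .w g k 1 2 := Rs h02 (by simp only [f, sc, if_neg hg]; rfl)
    have h11 : ∃ n, f^[n] .P = .w g k 1 1 := Rs h12 (by simp only [f, sc, if_neg hg]; rfl)
    have h10 : ∃ n, f^[n] .P = .w g k 1 0 := Rs h11 (by simp only [f, sc, if_neg hg]; rfl)
    have h20 : ∃ n, f^[n] .P = .w g k 2 0 := Rs h10 (by simp only [f, sc, if_neg hg]; rfl)
    have h21 : ∃ n, f^[n] .P = .w g k 2 1 := Rs h20 (by simp only [f, sc, if_neg hg]; rfl)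
    have h22 : ∃ n, f^[n] .P = .w g k 2 2 := Rs h21 (by simp only [f, sc, if_neg hg]; rfl)
    intro j c'
    fin_cases j <;> fin_cases c'
    · exact h00
    · exact h01
    · exact h02
    · exact h10
    · exact h11
    · exact h12
    · exact h20
    · exact h21
    · exact h22
  -- off gadgets
  have offg : ∀ (g : Gd m), g ≠ c → (∃ n, f^[n] .P = .w g 0 0 0) →
      ∀ k j c', ∃ n, f^[n] .P = .w g k j c' := by
    intro g hg h0
    have hk : ∀ n (hn : n < m + 1), ∃ N, f^[N] .P = .w g ⟨n, hn⟩ 0 0 := by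
      intro n
      induction n with
      | zero => intro _; exact h0
      | succ n ih =>
        intro hn
        have h22 := offw g ⟨n, by omega⟩ hg (ih (by omega)) 2 2
        apply Rs h22
        have hne : (⟨n, by omega⟩ : Fin (m + 1)) ≠ Fin.last m := by
          intro h
          have := congrArg Fin.val h
          simp at this
          omega
        simp only [f, sc, if_neg hg]
        show nxt e g ⟨n, _⟩ = _
        unfold nxt
        rw [if_neg hne]
        congr 1
        apply Fin.ext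
        rw [Fin.val_add_one_of_lt (Fin.lt_last_iff_ne_last.2 hne)]
    intro k
    exact offw g k hg (hk k.1 k.2)
  have offall : ∀ n (hn : n + 1 < n0 + 2), ∃ N, f^[N] .P = .w (e.symm ⟨n + 1, hn⟩) 0 0 0 := by
    intro n
    induction n with
    | zero =>
      intro hn
      exact ⟨1, rfl⟩
    | succ n ih =>
      intro hn
      have h1 := ih (by omega)
      have hg : e.symm ⟨n + 1, by omega⟩ ≠ c := by
        intro h
        rw [Equiv.symm_apply_eq, hec] at h
        exact absurd (congrArg Fin.val h) (by simp)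
      have h22 := offg _ hg h1 (Fin.last m) 2 2
      apply Rs h22
      simp only [f, sc, if_neg hg]
      show nxt e _ _ = _
      unfold nxt
      have hne : (⟨n + 1, by omega⟩ : Fin (n0 + 2)) ≠ Fin.last (n0 + 1) := by
        intro h
        have := congrArg Fin.val h
        simp at this
        omega
      rw [if_pos rfl, if_neg (by rw [Equiv.apply_symm_apply]; exact hne), Equiv.apply_symm_apply]
      congr 2
      apply Fin.ext
      rw [Fin.val_add_one_of_lt (Fin.lt_last_iff_ne_last.2 hne)]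
  have hoff : ∀ g, g ≠ c → ∀ k j c', ∃ n, f^[n] .P = .w g k j c' := by
    intro g hg
    apply offg g hg
    have hpos : (e g).val ≠ 0 := by
      intro h
      exact hg (e.injective ((Fin.ext h : e g = 0).trans hec.symm))
    have := offall ((e g).val - 1) (by omega)
    have h1 : (⟨(e g).val - 1 + 1, by omega⟩ : Fin (n0 + 2)) = e g := Fin.ext (by simp; omega)
    rw [h1, Equiv.symm_apply_apply] at this
    exact this
  -- Q, O
  have hQ : ∃ n, f^[n] .P = .Q := by
    have hg : e.symm (Fin.last (n0 + 1)) ≠ c := by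
      intro h
      rw [Equiv.symm_apply_eq, hec] at h
      exact absurd (congrArg Fin.val h) (by simp)
    apply Rs (hoff _ hg (Fin.last m) 2 2)
    simp only [f, sc, if_neg hg]
    show nxt e _ _ = _
    unfold nxt
    rw [if_pos rfl, if_pos (Equiv.apply_symm_apply _ _)]
  have hO : ∃ n, f^[n] .P = .O := Rs hQ rfl
  have hl0 : ∃ n, f^[n] .P = .l 0 := Rs hO rfl
  -- on wires
  have onw : ∀ i, (∃ n, f^[n] .P = .l i) → (∀ j c', ∃ n, f^[n] .P = .w c i j c') ∧
      ∃ n, f^[n] .P = .r (c.1 i) := by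
    intro i hl
    have h02 : ∃ n, f^[n] .P = .w c i 0 2 := Rs hl rfl
    have h01 : ∃ n, f^[n] .P = .w c i 0 1 := Rs h02 (by simp only [f, sc, if_true]; rfl)
    have h00 : ∃ n, f^[n] .P = .w c i 0 0 := Rs h01 (by simp only [f, sc, if_true]; rfl)
    have h10 : ∃ n, f^[n] .P = .w c i 1 0 := Rs h00 (by simp only [f, sc, if_true]; rfl)
    have h11 : ∃ n, f^[n] .P = .w c i 1 1 := Rs h10 (by simp only [f, sc, if_true]; rfl)
    have h12 : ∃ n, f^[n] .P = .w c i 1 2 := Rs h11 (by simp only [f, sc, if_true]; rfl)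
    have h22 : ∃ n, f^[n] .P = .w c i 2 2 := Rs h12 (by simp only [f, sc, if_true]; rfl)
    have h21 : ∃ n, f^[n] .P = .w c i 2 1 := Rs h22 (by simp only [f, sc, if_true]; rfl)
    have h20 : ∃ n, f^[n] .P = .w c i 2 0 := Rs h21 (by simp only [f, sc, if_true]; rfl)
    refine ⟨?_, Rs h20 (by simp only [f, sc, if_true]; rfl)⟩
    intro j c'
    fin_cases j <;> fin_cases c'
    · exact h00
    · exact h01
    · exact h02
    · exact h10
    · exact h11
    · exact h12
    · exact h20
    · exact h21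
    · exact h22
  -- rows
  have hrow : ∀ j, (∃ n, f^[n] .P = .r j) → ∀ p, ∃ n, f^[n] .P = .row j p := by
    intro j hr
    have hrec : ∀ k, k ≤ d → ∃ n, f^[n] .P = .row j ⟨d - k, by omega⟩ := by
      intro k
      induction k with
      | zero => intro _; exact Rs hr rfl
      | succ k ih =>
        intro hk
        apply Rs (ih (by omega))
        have hne : (⟨d - k, by omega⟩ : Fin (d + 1)) ≠ 0 := by
          intro h
          have := congrArg Fin.val h
          simp at this
          omega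
        simp only [f, sc, if_neg hne]
        congr 1
    intro p
    have := hrec (d - p) (by omega)
    have h1 : (⟨d - (d - (p : ℕ)), by omega⟩ : Fin (d + 1)) = p := Fin.ext (by simp; omega)
    rwa [h1] at this
  have hrowl : ∀ j, j ≠ 0 → (∃ n, f^[n] .P = .r j) → ∃ n, f^[n] .P = .l j := by
    intro j hj hr
    apply Rs (hrow j hr 0)
    simp only [f, sc, if_true, if_neg hj]
  have hl : ∀ n (hn : n < m + 1), ∃ N, f^[N] .P = .l ⟨n, hn⟩ := by
    intro n
    induction n with
    | zero => intro _; exact hl0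
    | succ n ih =>
      intro hn
      have h1 := (onw _ (ih (by omega))).2
      have h2 : c.1 ⟨n, by omega⟩ = ⟨n + 1, hn⟩ := finRotate_of_lt (by omega)
      rw [h2] at h1
      exact hrowl _ (fun h => absurd (congrArg Fin.val h) (by simp)) h1
  have hl' : ∀ i, ∃ N, f^[N] .P = .l i := fun i => hl i.1 i.2
  have hr' : ∀ j, ∃ N, f^[N] .P = .r j := by
    intro j
    have := (onw _ (hl' (c.1.symm j))).2
    rwa [Equiv.apply_symm_apply] at this
  apply ham_of_succ f .P
  · intro v
    cases v with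
    | row i p => exact hrow i (hr' i) p
    | l i => exact hl' i
    | r j => exact hr' j
    | P => exact ⟨0, rfl⟩
    | Q => exact hQ
    | O => exact hO
    | w g k j c' =>
      by_cases hg : g = c
      · rw [hg]
        exact (onw k (hl' k)).1 j c'
      · exact hoff g hg k j c'
  · exact ⟨.row 0 0, by simp only [f, sc, if_true]⟩
  · exact sc_adj c e
  · exact ⟨.P, .Q, .O, by simp, by simp, by simp⟩

end

end Pool.Agent.Q296.HD
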