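import Pool.Agent.Q296.HD.Basic

/-! The graphs `G_σ` with `σ` odd are not Hamiltonian. -/

namespace Pool.Agent.Q296.HD

open Equiv

section general

variable {V : Type*} {H : SimpleGraph V}

lemma closed_all (hc : H.Connected) {U : Set V} {u : V} (hu : u ∈ U)
    (hU : ∀ x ∈ U, ∀ y, H.Adj x y → y ∈ U) (v : V) : v ∈ U := by
  obtain ⟨p⟩ := hc.preconnected u v
  induction p with
  | nil => exact hu
  | cons h _ ih => exact ih (hU _ hu _ h)

lemma two_of_subset {v x y : V} (h2 : (H.neighborSet v).ncard = 2)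
    (h : ∀ w, H.Adj v w → w = x ∨ w = y) : H.Adj v x ∧ H.Adj v y := by
  obtain ⟨a, b, hab, hs⟩ := Set.ncard_eq_two.1 h2
  have ha : H.Adj v a := by
    have : a ∈ H.neighborSet v := by rw [hs]; simp
    exact this
  have hb : H.Adj v b := by
    have : b ∈ H.neighborSet v := by rw [hs]; simp
    exact this
  rcases h a ha with rfl | rfl <;> rcases h b hb with rfl | rfl
  · exact absurd rfl hab
  · exact ⟨ha, hb⟩
  · exact ⟨hb, ha⟩
  · exact absurd rfl hab

lemma not_three {v x y z : V} (h2 : (H.neighborSet v).ncard = 2) (hx : H.Adj v x)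
    (hy : H.Adj v y) (hz : H.Adj v z) (hxy : x ≠ y) (hxz : x ≠ z) (hyz : y ≠ z) : False := by
  obtain ⟨a, b, hab, hs⟩ := Set.ncard_eq_two.1 h2
  have hx' : x = a ∨ x = b := by
    have : x ∈ H.neighborSet v := hx
    rw [hs] at this; simpa using this
  have hy' : y = a ∨ y = b := by
    have : y ∈ H.neighborSet v := hy
    rw [hs] at this; simpa using this
  have hz' : z = a ∨ z = b := by
    have : z ∈ H.neighborSet v := hz
    rw [hs] at this; simpa using this
  rcases hx' with rfl | rfl <;> rcases hy' with rfl | rfl <;> rcases hz' with rfl | rfl <;>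
    simp_all

lemma exists_other {v x : V} (h2 : (H.neighborSet v).ncard = 2) :
    ∃ y, y ≠ x ∧ H.Adj v y := by
  obtain ⟨a, b, hab, hs⟩ := Set.ncard_eq_two.1 h2
  have ha : H.Adj v a := by
    have : a ∈ H.neighborSet v := by rw [hs]; simp
    exact this
  have hb : H.Adj v b := by
    have : b ∈ H.neighborSet v := by rw [hs]; simp
    exact this
  by_cases h : a = x
  · exact ⟨b, fun h' => hab (h.trans h'.symm), hb⟩
  · exact ⟨a, h, ha⟩

lemma only_two {v x y : V} (h2 : (H.neighborSet v).ncard = 2) (hx : H.Adj v x)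
    (hy : H.Adj v y) (hxy : x ≠ y) {z : V} (hz : H.Adj v z) : z = x ∨ z = y := by
  by_contra hno
  rw [not_or] at hno
  exact not_three h2 hx hy hz hxy (Ne.symm hno.1) (Ne.symm hno.2)

/-- a 6-cycle in a connected 2-regular graph is everything -/
lemma six_all (hc : H.Connected) (h2 : ∀ v, (H.neighborSet v).ncard = 2) (f : Fin 6 → V)
    (hf : Function.Injective f) (hadj : ∀ i, H.Adj (f i) (f (i + 1))) (v : V) :
    v ∈ Set.range f := by
  apply closed_all hc (U := Set.range f) (u := f 0) ⟨0, rfl⟩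
  rintro _ ⟨i, rfl⟩ y hy
  have h1 : H.Adj (f i) (f (i + 1)) := hadj i
  have h3 : H.Adj (f i) (f (i - 1)) := by
    have := hadj (i - 1)
    rw [sub_add_cancel] at this
    exact this.symm
  have hne : f (i + 1) ≠ f (i - 1) := by
    intro h
    have key : ∀ i : Fin 6, i + 1 ≠ i - 1 := by decide
    exact key i (hf h)
  rcases only_two (h2 _) h1 h3 hne hy with h | h
  · exact ⟨_, h.symm⟩
  · exact ⟨_, h.symm⟩

end general

variable {m d : ℕ} {σ : Perm (Fin (m + 1))} {H : SimpleGraph (Vx m d)}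

/-- the possible outer neighbours of the port `(0,0)` -/
def PA (g : Gd m) (k : Fin (m + 1)) (u : Vx m d) : Prop :=
  (k = 0 ∧ u = .P) ∨ ∃ g' k', u = .w g' k' 2 2 ∧
    ((g' = g ∧ (k' : ℕ) + 1 = k) ∨ (k' = Fin.last m ∧ k = 0))

/-- the possible outer neighbours of the port `(2,2)` -/
def PD (g : Gd m) (k : Fin (m + 1)) (u : Vx m d) : Prop :=
  (k = Fin.last m ∧ u = .Q) ∨ ∃ g' k', u = .w g' k' 0 0 ∧
    ((g = g' ∧ (k : ℕ) + 1 = k') ∨ (k = Fin.last m ∧ k' = 0))

lemma nb {g : Gd m} {k : Fin (m + 1)} {j c : Fin 3} {u : Vx m d}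
    (h : (Gr m d σ).Adj (.w g k j c) u) :
    (∃ j' c', u = .w g k j' c' ∧ (inner j c j' c' ∨ inner j' c' j c)) ∨
    (j = 0 ∧ c = 0 ∧ PA g k u) ∨ (j = 2 ∧ c = 2 ∧ PD g k u) ∨
    (j = 0 ∧ c = 2 ∧ u = .l k) ∨ (j = 2 ∧ c = 0 ∧ u = .r (g.1 k)) := by
  rcases h with h | h
  · cases u with
    | w g' k' j' c' =>
      rcases h with ⟨rfl, rfl, h⟩ | ⟨⟨rfl, rfl, rfl, rfl⟩, h⟩
      · exact Or.inl ⟨j', c', rfl, Or.inl h⟩
      · exact Or.inr (Or.inr (Or.inl ⟨rfl, rfl, Or.inr ⟨g', k', rfl, h⟩⟩))
    | _ => exact h.elim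
  · cases u with
    | w g' k' j' c' =>
      rcases h with ⟨rfl, rfl, h⟩ | ⟨⟨rfl, rfl, rfl, rfl⟩, h⟩
      · exact Or.inl ⟨j', c', rfl, Or.inr h⟩
      · exact Or.inr (Or.inl ⟨rfl, rfl, Or.inr ⟨g', k', rfl, h⟩⟩)
    | row i p => exact h.elim
    | l i =>
      obtain ⟨rfl, rfl, rfl⟩ := h
      exact Or.inr (Or.inr (Or.inr (Or.inl ⟨rfl, rfl, rfl⟩)))
    | r i =>
      obtain ⟨rfl, rfl, rfl⟩ := h
      exact Or.inr (Or.inr (Or.inr (Or.inr ⟨rfl, rfl, rfl⟩)))
    | P =>
      obtain ⟨rfl, rfl, rfl⟩ := h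
      exact Or.inr (Or.inl ⟨rfl, rfl, Or.inl ⟨rfl, rfl⟩⟩)
    | Q =>
      obtain ⟨rfl, rfl, rfl⟩ := h
      exact Or.inr (Or.inr (Or.inl ⟨rfl, rfl, Or.inl ⟨rfl, rfl⟩⟩))
    | O => exact h.elim

section loc

variable (hle : H ≤ Gr m d σ) (g : Gd m) (k : Fin (m + 1))

include hle

lemma nb01 {u : Vx m d} {j : Fin 3} (h0 : H.Adj (.w g k j 1) u) :
    u = .w g k j 0 ∨ u = .w g k j 2 := by
  rcases nb (hle h0) with ⟨j', c', rfl, h⟩ | ⟨-, h, -⟩ | ⟨-, h, -⟩ | ⟨-, h, -⟩ | ⟨-, h, -⟩
  · simp only [Vx.w.injEq, true_and]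
    clear h0
    revert h; revert j j' c'; decide
  all_goals exact absurd h (by decide)

lemma nb10 {u : Vx m d} (h0 : H.Adj (.w g k 1 0) u) :
    u = .w g k 0 0 ∨ u = .w g k 2 0 ∨ u = .w g k 1 1 := by
  rcases nb (hle h0) with ⟨j', c', rfl, h⟩ | ⟨h, -⟩ | ⟨h, -⟩ | ⟨h, -⟩ | ⟨h, -⟩
  · simp only [Vx.w.injEq, true_and]
    clear h0
    revert h; revert j' c'; decide
  all_goals exact absurd h (by decide)

lemma nb12 {u : Vx m d} (h0 : H.Adj (.w g k 1 2) u) :
    u = .w g k 0 2 ∨ u = .w g k 2 2 ∨ u = .w g k 1 1 := by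
  rcases nb (hle h0) with ⟨j', c', rfl, h⟩ | ⟨h, -⟩ | ⟨h, -⟩ | ⟨h, -⟩ | ⟨h, -⟩
  · simp only [Vx.w.injEq, true_and]
    clear h0
    revert h; revert j' c'; decide
  all_goals exact absurd h (by decide)

lemma nb00 {u : Vx m d} (h0 : H.Adj (.w g k 0 0) u) :
    u = .w g k 0 1 ∨ u = .w g k 1 0 ∨ PA g k u := by
  rcases nb (hle h0) with ⟨j', c', rfl, h⟩ | ⟨-, -, h⟩ | ⟨h, -⟩ | ⟨-, h, -⟩ | ⟨h, -⟩
  · simp only [Vx.w.injEq, true_and]
    clear h0
    rw [← or_assoc]
    left
    revert h; revert j' c'; decide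
  · exact Or.inr (Or.inr h)
  all_goals exact absurd h (by decide)

lemma nb22 {u : Vx m d} (h0 : H.Adj (.w g k 2 2) u) :
    u = .w g k 2 1 ∨ u = .w g k 1 2 ∨ PD g k u := by
  rcases nb (hle h0) with ⟨j', c', rfl, h⟩ | ⟨h, -⟩ | ⟨-, -, h⟩ | ⟨h, -⟩ | ⟨-, h, -⟩
  · simp only [Vx.w.injEq, true_and]
    clear h0
    rw [← or_assoc]
    left
    revert h; revert j' c'; decide
  · exact absurd h (by decide)
  · exact Or.inr (Or.inr h)
  all_goals exact absurd h (by decide)

lemma nb02 {u : Vx m d} (h0 : H.Adj (.w g k 0 2) u) :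
    u = .w g k 0 1 ∨ u = .w g k 1 2 ∨ u = .l k := by
  rcases nb (hle h0) with ⟨j', c', rfl, h⟩ | ⟨-, h, -⟩ | ⟨h, -⟩ | ⟨-, -, h⟩ | ⟨h, -⟩
  · simp only [Vx.w.injEq, true_and]
    clear h0
    rw [← or_assoc]
    left
    revert h; revert j' c'; decide
  · exact absurd h (by decide)
  · exact absurd h (by decide)
  · exact Or.inr (Or.inr h)
  · exact absurd h (by decide)

lemma nb20 {u : Vx m d} (h0 : H.Adj (.w g k 2 0) u) :
    u = .w g k 2 1 ∨ u = .w g k 1 0 ∨ u = .r (g.1 k) := by
  rcases nb (hle h0) with ⟨j', c', rfl, h⟩ | ⟨h, -⟩ | ⟨-, h, -⟩ | ⟨h, -⟩ | ⟨-, -, h⟩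
  · simp only [Vx.w.injEq, true_and]
    clear h0
    rw [← or_assoc]
    left
    revert h; revert j' c'; decide
  · exact absurd h (by decide)
  · exact absurd h (by decide)
  · exact absurd h (by decide)
  · exact Or.inr (Or.inr h)

variable (hc : H.Connected) (h2 : ∀ v, (H.neighborSet v).ncard = 2)

include h2

lemma rung (j : Fin 3) : H.Adj (.w g k j 1) (.w g k j 0) ∧ H.Adj (.w g k j 1) (.w g k j 2) :=
  two_of_subset (h2 _) fun _ h => nb01 hle g k h

include hc

lemma noN1 (h1 : H.Adj (.w g k 0 0) (.w g k 1 0)) (h3 : H.Adj (.w g k 0 2) (.w g k 1 2)) :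
    False := by
  have := six_all hc h2 ![.w g k 0 0, .w g k 1 0, .w g k 1 1, .w g k 1 2, .w g k 0 2, .w g k 0 1]
    (by
      intro i j
      fin_cases i <;> fin_cases j <;> simp)
    (by
      intro i
      fin_cases i
      · exact h1
      · exact (rung hle g k h2 1).1.symm
      · exact (rung hle g k h2 1).2
      · exact h3.symm
      · exact (rung hle g k h2 0).2.symm
      · exact (rung hle g k h2 0).1) .P
  obtain ⟨i, hi⟩ := this
  fin_cases i <;> simp at hi

lemma noN2 (h1 : H.Adj (.w g k 1 0) (.w g k 2 0)) (h3 : H.Adj (.w g k 1 2) (.w g k 2 2)) :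
    False := by
  have := six_all hc h2 ![.w g k 1 0, .w g k 2 0, .w g k 2 1, .w g k 2 2, .w g k 1 2, .w g k 1 1]
    (by
      intro i j
      fin_cases i <;> fin_cases j <;> simp)
    (by
      intro i
      fin_cases i
      · exact h1
      · exact (rung hle g k h2 2).1.symm
      · exact (rung hle g k h2 2).2
      · exact h3.symm
      · exact (rung hle g k h2 1).2.symm
      · exact (rung hle g k h2 1).1) .P
  obtain ⟨i, hi⟩ := this
  fin_cases i <;> simp at hi

/-- the on state -/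
lemma on_state (hx : H.Adj (.w g k 0 0) (.w g k 1 0)) :
    (∀ u, H.Adj (.w g k 0 0) u → ¬ PA g k u) ∧ (∀ u, H.Adj (.w g k 2 2) u → ¬ PD g k u) ∧
    H.Adj (.w g k 0 2) (.l k) ∧ H.Adj (.w g k 2 0) (.r (g.1 k)) := by
  have hy : ¬ H.Adj (.w g k 0 2) (.w g k 1 2) := fun h => noN1 hle g k hc h2 hx h
  -- (1,2) is joined to (2,2)
  have h12 : H.Adj (.w g k 1 2) (.w g k 2 2) := by
    obtain ⟨y, hy1, hy2⟩ := exists_other (x := Vx.w g k 1 1) (h2 (.w g k 1 2))
    rcases nb12 hle g k hy2 with rfl | rfl | rfl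
    · exact absurd hy2.symm hy
    · exact hy2
    · exact absurd rfl hy1
  refine ⟨?_, ?_, ?_, ?_⟩
  · intro u hu hPA
    rcases only_two (h2 _) hx (rung hle g k h2 0).1.symm (by simp) hu with rfl | rfl
    · rcases hPA with ⟨-, h⟩ | ⟨g', k', h, -⟩ <;> simp at h
    · rcases hPA with ⟨-, h⟩ | ⟨g', k', h, -⟩ <;> simp at h
  · intro u hu hPD
    rcases only_two (h2 _) h12.symm (rung hle g k h2 2).2.symm (by simp) hu with rfl | rfl
    · rcases hPD with ⟨-, h⟩ | ⟨g', k', h, -⟩ <;> simp at h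
    · rcases hPD with ⟨-, h⟩ | ⟨g', k', h, -⟩ <;> simp at h
  · obtain ⟨y, hy1, hy2⟩ := exists_other (x := Vx.w g k 0 1) (h2 (.w g k 0 2))
    rcases nb02 hle g k hy2 with rfl | rfl | rfl
    · exact absurd rfl hy1
    · exact absurd hy2 hy
    · exact hy2
  · have hz : ¬ H.Adj (.w g k 2 0) (.w g k 1 0) := by
      intro h
      exact not_three (h2 _) hx.symm h.symm (rung hle g k h2 1).1.symm (by simp) (by simp) (by simp)
    obtain ⟨y, hy1, hy2⟩ := exists_other (x := Vx.w g k 2 1) (h2 (.w g k 2 0))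
    rcases nb20 hle g k hy2 with rfl | rfl | rfl
    · exact absurd rfl hy1
    · exact absurd hy2 hz
    · exact hy2

/-- the off state -/
lemma off_state (hx : ¬ H.Adj (.w g k 0 0) (.w g k 1 0)) :
    (∃ u, H.Adj (.w g k 0 0) u ∧ PA g k u) ∧ (∃ u, H.Adj (.w g k 2 2) u ∧ PD g k u) ∧
    ¬ H.Adj (.w g k 0 2) (.l k) ∧ ¬ H.Adj (.w g k 2 0) (.r (g.1 k)) := by
  have h10 : H.Adj (.w g k 1 0) (.w g k 2 0) := by
    obtain ⟨y, hy1, hy2⟩ := exists_other (x := Vx.w g k 1 1) (h2 (.w g k 1 0))
    rcases nb10 hle g k hy2 with rfl | rfl | rfl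
    · exact absurd hy2.symm hx
    · exact hy2
    · exact absurd rfl hy1
  have h12 : ¬ H.Adj (.w g k 1 2) (.w g k 2 2) := fun h => noN2 hle g k hc h2 h10 h
  have h02 : H.Adj (.w g k 0 2) (.w g k 1 2) := by
    obtain ⟨y, hy1, hy2⟩ := exists_other (x := Vx.w g k 1 1) (h2 (.w g k 1 2))
    rcases nb12 hle g k hy2 with rfl | rfl | rfl
    · exact hy2.symm
    · exact absurd hy2 h12
    · exact absurd rfl hy1
  refine ⟨?_, ?_, ?_, ?_⟩
  · obtain ⟨y, hy1, hy2⟩ := exists_other (x := Vx.w g k 0 1) (h2 (.w g k 0 0))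
    rcases nb00 hle g k hy2 with rfl | rfl | h
    · exact absurd rfl hy1
    · exact absurd hy2 hx
    · exact ⟨y, hy2, h⟩
  · obtain ⟨y, hy1, hy2⟩ := exists_other (x := Vx.w g k 2 1) (h2 (.w g k 2 2))
    rcases nb22 hle g k hy2 with rfl | rfl | h
    · exact absurd rfl hy1
    · exact absurd hy2.symm h12
    · exact ⟨y, hy2, h⟩
  · intro h
    exact not_three (h2 _) h h02 (rung hle g k h2 0).2.symm (by simp) (by simp) (by simp)
  · intro h
    exact not_three (h2 _) h h10.symm (rung hle g k h2 2).1.symm (by simp) (by simp) (by simp)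

/-- the state is the same along the gadget -/
lemma state_succ {k' : Fin (m + 1)} (hk : (k : ℕ) + 1 = k') :
    H.Adj (.w g k 0 0) (.w g k 1 0) ↔ H.Adj (.w g k' 0 0) (.w g k' 1 0) := by
  constructor
  · intro hx
    by_contra hno
    obtain ⟨⟨u, hu1, hu2⟩, -⟩ := off_state hle g k' hc h2 hno
    rcases hu2 with ⟨h0, -⟩ | ⟨g'', k'', rfl, (⟨rfl, h3⟩ | ⟨-, h0⟩)⟩
    · rw [h0] at hk; simp at hk
    · have : k'' = k := by
        apply Fin.ext; omega
      subst this
      refine (on_state hle _ _ hc h2 hx).2.1 _ hu1.symm (Or.inr ⟨_, _, rfl, Or.inl ⟨rfl, hk⟩⟩)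
    · rw [h0] at hk; simp at hk
  · intro hx
    by_contra hno
    obtain ⟨-, ⟨u, hu1, hu2⟩, -⟩ := off_state hle g k hc h2 hno
    rcases hu2 with ⟨h0, -⟩ | ⟨g'', k'', rfl, (⟨rfl, h3⟩ | ⟨h0, -⟩)⟩
    · rw [h0] at hk; simp at hk; omega
    · have : k'' = k' := by
        apply Fin.ext; omega
      subst this
      refine (on_state hle _ _ hc h2 hx).1 _ hu1.symm (Or.inr ⟨_, _, rfl, Or.inl ⟨rfl, hk⟩⟩)
    · rw [h0] at hk; simp at hk; omega

end loc

lemma state_all (hle : H ≤ Gr m d σ) (hc : H.Connected)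
    (h2 : ∀ v, (H.neighborSet v).ncard = 2) (g : Gd m) (k : Fin (m + 1)) :
    H.Adj (.w g k 0 0) (.w g k 1 0) ↔ H.Adj (.w g 0 0 0) (.w g 0 1 0) := by
  obtain ⟨n, hn⟩ := k
  induction n with
  | zero => exact Iff.rfl
  | succ n ih =>
    rw [← ih (by omega)]
    exact (state_succ hle g ⟨n, by omega⟩ hc h2 rfl).symm

/-- exactly one gadget is on -/
lemma exists_on (hle : H ≤ Gr m d σ) (hc : H.Connected)
    (h2 : ∀ v, (H.neighborSet v).ncard = 2) :
    ∃ g : Gd m, ∀ (g' : Gd m) (k : Fin (m + 1)),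
      H.Adj (.w g' k 0 0) (.w g' k 1 0) ↔ g' = g := by
  have hO : H.Adj .O .Q ∧ H.Adj .O (.l 0) := by
    apply two_of_subset (h2 _)
    intro w hw
    rcases hle hw with h | h
    · cases w with
      | l i =>
        have : i = 0 := h
        exact Or.inr (by rw [this])
      | _ => exact h.elim
    · cases w with
      | Q => exact Or.inl rfl
      | _ => exact h.elim
  obtain ⟨y, hy1, hy2⟩ := exists_other (x := Vx.O) (h2 (.l 0))
  have hy : ∃ g, y = .w g 0 0 2 := by
    rcases hle hy2 with h | h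
    · cases y with
      | w g k j c =>
        obtain ⟨rfl, rfl, rfl⟩ := h
        exact ⟨g, rfl⟩
      | _ => exact h.elim
    · cases y with
      | row i p => exact absurd h.1 h.2.2
      | O => exact absurd rfl hy1
      | _ => exact h.elim
  obtain ⟨g, rfl⟩ := hy
  have hg : H.Adj (.w g 0 0 0) (.w g 0 1 0) := by
    by_contra hno
    exact (off_state hle g 0 hc h2 hno).2.2.1 hy2.symm
  refine ⟨g, fun g' k => ?_⟩
  rw [state_all hle hc h2]
  constructor
  · intro h
    by_contra hne
    have h3 := (on_state hle g' 0 hc h2 h).2.2.1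
    exact not_three (h2 _) hO.2.symm hy2 h3.symm (by simp) (by simp)
      (by simpa using fun h => hne h.symm)
  · rintro rfl
    exact hg

/-- **The graphs with `σ` odd and `m` even are not Hamiltonian.** -/
theorem not_ham (hm : Even m) (hm0 : m ≠ 0) (hσ : Perm.sign σ = -1) (hle : H ≤ Gr m d σ)
    (hc : H.Connected) (h2 : ∀ v, (H.neighborSet v).ncard = 2) : False := by
  obtain ⟨g, hg⟩ := exists_on hle hc h2
  set τ : Perm (Fin (m + 1)) := σ⁻¹ * g.1 with hτ
  have hsτ : Perm.sign τ = -1 := by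
    rw [hτ, map_mul, map_inv, hσ, g.2]; rfl
  -- some index is not in the orbit of `0`
  obtain ⟨i0, hi0⟩ : ∃ i, ¬ Perm.SameCycle τ 0 i := by
    by_contra hno
    simp only [not_exists, not_not] at hno
    have h0 : τ 0 ≠ 0 := by
      intro h
      obtain ⟨n, hn⟩ := hno (Fin.last m)
      rw [Perm.zpow_apply_eq_self_of_apply_eq_self h] at hn
      have := congrArg Fin.val hn
      simp at this
      exact hm0 this.symm
    have hcyc : Perm.IsCycle τ := ⟨0, h0, fun y _ => hno y⟩
    have hsupp : τ.support = Finset.univ := by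
      ext i
      simp only [Perm.mem_support, Finset.mem_univ, iff_true]
      intro hi
      exact h0 ((hno i).apply_eq_self_iff.2 hi)
    have := hcyc.sign
    rw [hsupp, hsτ, Finset.card_univ, Fintype.card_fin, pow_succ, hm.neg_one_pow] at this
    exact absurd this (by decide)
  -- the closed set
  let U : Set (Vx m d) := fun v => match v with
    | .row i _ => ¬ Perm.SameCycle τ 0 i
    | .l i => ¬ Perm.SameCycle τ 0 i
    | .r j => ¬ Perm.SameCycle τ 0 (σ⁻¹ j)
    | .w g' k _ _ => g' = g ∧ ¬ Perm.SameCycle τ 0 k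
    | _ => False
  have hzero : ∀ {i : Fin (m + 1)}, ¬ Perm.SameCycle τ 0 i → i ≠ 0 := by
    rintro i hi rfl
    exact hi (Perm.SameCycle.refl τ 0)
  have hnext : ∀ k : Fin (m + 1), Perm.SameCycle τ 0 (σ⁻¹ (g.1 k)) ↔ Perm.SameCycle τ 0 k := by
    intro k
    exact Perm.sameCycle_apply_right
  have hP : Vx.P ∈ U := by
    apply closed_all hc (U := U) (u := .l i0)
    · exact hi0
    · intro x hx y hxy
      have hG := hle hxy
      cases x with
      | row i p =>
        have hx' : ¬ Perm.SameCycle τ 0 i := hx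
        cases y with
        | row i' p' =>
          have : i = i' := by
            rcases hG with h | h
            · exact h.1
            · exact h.1.symm
          show ¬ Perm.SameCycle τ 0 i'
          rwa [← this]
        | l i' =>
          have : i = i' := by
            rcases hG with h | h
            · exact h.1
            · exact h.elim
          show ¬ Perm.SameCycle τ 0 i'
          rwa [← this]
        | r j =>
          have : j = σ i := by
            rcases hG with h | h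
            · exact h.2
            · exact h.elim
          show ¬ Perm.SameCycle τ 0 (σ⁻¹ j)
          rw [this]
          simpa using hx'
        | P =>
          rcases hG with h | h
          · exact absurd h.1 (hzero hx')
          · exact h.elim
        | Q => rcases hG with h | h <;> exact h.elim
        | O => rcases hG with h | h <;> exact h.elim
        | w g' k j c => rcases hG with h | h <;> exact h.elim
      | l i =>
        have hx' : ¬ Perm.SameCycle τ 0 i := hx
        cases y with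
        | row i' p' =>
          have : i' = i := by
            rcases hG with h | h
            · exact h.elim
            · exact h.1
          show ¬ Perm.SameCycle τ 0 i'
          rwa [this]
        | w g' k j c =>
          rcases hG with h | h
          · obtain ⟨rfl, rfl, rfl⟩ := h
            refine ⟨?_, hx'⟩
            rw [← hg g' k]
            by_contra hno
            exact (off_state hle g' k hc h2 hno).2.2.1 hxy.symm
          · exact h.elim
        | O =>
          rcases hG with h | h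
          · exact h.elim
          · exact absurd h (hzero hx')
        | l i' => rcases hG with h | h <;> exact h.elim
        | r j => rcases hG with h | h <;> exact h.elim
        | P => rcases hG with h | h <;> exact h.elim
        | Q => rcases hG with h | h <;> exact h.elim
      | r j =>
        have hx' : ¬ Perm.SameCycle τ 0 (σ⁻¹ j) := hx
        cases y with
        | row i' p' =>
          have : j = σ i' := by
            rcases hG with h | h
            · exact h.elim
            · exact h.2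
          show ¬ Perm.SameCycle τ 0 i'
          rw [this] at hx'
          simpa using hx'
        | w g' k j' c =>
          rcases hG with h | h
          · obtain ⟨rfl, rfl, rfl⟩ := h
            have hgg : g' = g := by
              rw [← hg g' k]
              by_contra hno
              exact (off_state hle g' k hc h2 hno).2.2.2 hxy.symm
            subst hgg
            exact ⟨rfl, by rwa [hnext] at hx'⟩
          · exact h.elim
        | O => rcases hG with h | h <;> exact h.elim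
        | l i' => rcases hG with h | h <;> exact h.elim
        | r j => rcases hG with h | h <;> exact h.elim
        | P => rcases hG with h | h <;> exact h.elim
        | Q => rcases hG with h | h <;> exact h.elim
      | P => exact hx.elim
      | Q => exact hx.elim
      | O => exact hx.elim
      | w g' k j c =>
        obtain ⟨rfl, hk⟩ : g' = g ∧ ¬ Perm.SameCycle τ 0 k := hx
        have hon := (hg g' k).2 rfl
        obtain ⟨s1, s2, s3, s4⟩ := on_state hle g' k hc h2 hon
        rcases nb hG with ⟨j', c', rfl, h⟩ | ⟨rfl, rfl, h⟩ | ⟨rfl, rfl, h⟩ | ⟨-, -, rfl⟩ | ⟨-, -, rfl⟩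
        · exact ⟨rfl, hk⟩
        · exact absurd h (s1 _ hxy)
        · exact absurd h (s2 _ hxy)
        · exact hk
        · show ¬ Perm.SameCycle τ 0 (σ⁻¹ (g'.1 k))
          rwa [hnext]
  exact hP

end Pool.Agent.Q296.HD
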